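import Pool.Agent.Lib.MP_62070a_ag.FH.Defs
import Pool.Agent.Lib.MP_62070a_ag.FH.Main

set_option autoImplicit false

namespace Pool.Agent.Results.MP_62070a_ag.FibrationBrody

open Pool.Agent.Lib.MP_62070a_ag.FH

/-- **The fibration property for algebraic hyperbolicity when the fibres are Brody hyperbolic.** Let `X ⊆ P^n`,
`Y ⊆ P^m` be sets in complex projective spaces, `X` closed algebraic, and `f` a morphism on `X` with `f(X) ⊆ Y`. If `Y` is
algebraically hyperbolic and every fibre of `f : X → Y` is Brody hyperbolic, then `X` is algebraically hyperbolic. -/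
theorem result {n m : ℕ} {X : Set (PS n)} {Y : Set (PS m)} (hX : IsAlg X) {f : PS n → PS m} (hf : IsRegular X f)
    (hfY : ∀ x ∈ X, f x ∈ Y) (hY : AlgHyp Y) (hB : ∀ y : PS m, Brody {x | x ∈ X ∧ f x = y}) : AlgHyp X :=
  fibration hX hf hfY hB hY

end Pool.Agent.Results.MP_62070a_ag.FibrationBrody
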